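import Pool.Agent.Lib.MP_6bc78b_nt.MS.P4.Iface

/-! Project MS, Part IV, module NAS: `N(X) ~ X log X / (2 pi)`. -/

set_option autoImplicit false

open Complex Filter Topology ArithmeticFunction

namespace Pool.Agent.Lib.MP_6bc78b_nt.MS.P4.H84

theorem ww_eq (T γ : ℝ) : WW T (1 / 2 + γ * I) = ((wt T γ : ℝ) : ℂ) := by
  unfold WW wt
  rw [Complex.ofReal_exp]
  congr 1
  push_cast
  have : (1 / 2 + (γ : ℂ) * I - 1 / 2 - T * I) ^ 2 = -((γ : ℂ) - T) ^ 2 := by
    have hI : I ^ 2 = -1 := Complex.I_sq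
    have : (1 / 2 + (γ : ℂ) * I - 1 / 2 - T * I) ^ 2 = ((γ : ℂ) - T) ^ 2 * I ^ 2 := by ring
    rw [this, hI]; ring
  rw [this]

theorem zs_one (hfin : ∀ T : ℝ, (zset T).Finite) (T : ℝ) :
    (ZS T (fun _ => 1)).re = ∑ᶠ γ ∈ zset T, (mz γ : ℝ) * wt T γ := by
  have h : ZS T (fun _ => 1) = ((∑ᶠ γ ∈ zset T, (mz γ : ℝ) * wt T γ : ℝ) : ℂ) := by
    have h2 := AddMonoidHom.map_finsum_mem (fun γ : ℝ => (mz γ : ℝ) * wt T γ)
      (Complex.ofRealHom.toAddMonoidHom) (hfin T)
    have h3 : ((∑ᶠ γ ∈ zset T, (mz γ : ℝ) * wt T γ : ℝ) : ℂ)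
        = ∑ᶠ γ ∈ zset T, (((mz γ : ℝ) * wt T γ : ℝ) : ℂ) := h2
    rw [h3]
    unfold ZS
    refine finsum_congr fun γ => finsum_congr fun _ => ?_
    rw [ww_eq]
    push_cast
    ring
  rw [h, Complex.ofReal_re]

/-- The main term. -/
noncomputable def HH (X : ℝ) : ℝ := X * Real.log X / (2 * Real.pi)

/-- A primitive of the logarithm. -/
noncomputable def FF (X : ℝ) : ℝ := X * Real.log X - X

theorem HH_pos {X : ℝ} (hX : 1 < X) : 0 < HH X := by
  unfold HH
  have := Real.log_pos hX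
  have hpi := Real.pi_pos
  positivity

theorem tendsto_HH : Tendsto HH atTop atTop := by
  unfold HH
  apply Tendsto.atTop_div_const (by positivity)
  exact tendsto_id.atTop_mul_atTop₀ Real.tendsto_log_atTop

theorem tendsto_const_HH (K : ℝ) : Tendsto (fun X => K / HH X) atTop (𝓝 0) :=
  tendsto_const_nhds.div_atTop tendsto_HH

theorem tendsto_FF (c : ℝ) (hc : 0 < c) :
    Tendsto (fun X => FF (c * X) / (2 * Real.pi) / HH X) atTop (𝓝 c) := by
  have h1 : Tendsto (fun X : ℝ => c * (1 + (Real.log c - 1) / Real.log X)) atTop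
      (𝓝 (c * (1 + 0))) := by
    apply Tendsto.const_mul
    apply Tendsto.const_add
    exact tendsto_const_nhds.div_atTop Real.tendsto_log_atTop
  rw [add_zero, mul_one] at h1
  refine h1.congr' ?_
  filter_upwards [eventually_gt_atTop 1] with X hX
  have hl := Real.log_pos hX
  unfold FF HH
  rw [Real.log_mul hc.ne' (by linarith)]
  have hpi := Real.pi_pos
  field_simp
  ring

theorem tendsto_HH_mul (c : ℝ) (hc : 0 < c) :
    Tendsto (fun X => HH (c * X) / HH X) atTop (𝓝 c) := by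
  have h1 : Tendsto (fun X : ℝ => c * (1 + (Real.log c) / Real.log X)) atTop
      (𝓝 (c * (1 + 0))) := by
    apply Tendsto.const_mul
    apply Tendsto.const_add
    exact tendsto_const_nhds.div_atTop Real.tendsto_log_atTop
  rw [add_zero, mul_one] at h1
  refine h1.congr' ?_
  filter_upwards [eventually_gt_atTop 1] with X hX
  have hl := Real.log_pos hX
  unfold HH
  rw [Real.log_mul hc.ne' (by linarith)]
  have hpi := Real.pi_pos
  field_simp
  ring

theorem nas (h1 : ZNStatement) (h2 : AvStatement) (h3 : ZfacStatement) : NasStatement := by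
  obtain ⟨-, -, -, -, -, -, hfin⟩ := h3
  set g : ℝ → ℝ := fun T =>
    (∑ᶠ γ ∈ zset T, (mz γ : ℝ) * wt T γ) / (Real.sqrt Real.pi * DD T) with hg
  have hgl : Tendsto (fun T => g T / (Real.log T / (2 * Real.pi))) atTop (𝓝 1) := by
    refine h1.congr' ?_
    filter_upwards [eventually_gt_atTop 1] with T hT
    rw [zs_one hfin]
    have hl := Real.log_pos hT
    have hD : 0 < DD T := by
      unfold DD
      have : 0 < Real.log T ^ (2 / 3 : ℝ) := Real.rpow_pos_of_pos hl _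
      have hT0 : 0 < T := by linarith
      positivity
    have hpi := Real.pi_pos
    have hsp : 0 < Real.sqrt Real.pi := Real.sqrt_pos.2 hpi
    have hs2 : Real.sqrt Real.pi * Real.sqrt Real.pi = Real.pi := Real.mul_self_sqrt hpi.le
    simp only [hg, cG]
    have e1 : (2 * Real.pi) = 2 * (Real.sqrt Real.pi * Real.sqrt Real.pi) := by rw [hs2]
    rw [e1]
    field_simp
  have hbd : ∀ δ : ℝ, 0 < δ → ∃ X0 : ℝ, 3 ≤ X0 ∧ ∀ T : ℝ, X0 ≤ T →
      (1 - δ) * (Real.log T / (2 * Real.pi)) ≤ g T ∧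
      g T ≤ (1 + δ) * (Real.log T / (2 * Real.pi)) := by
    intro δ hδ
    have := (Metric.tendsto_nhds.1 hgl δ hδ)
    obtain ⟨A, hA⟩ := eventually_atTop.1 this
    refine ⟨max A 3, le_max_right _ _, fun T hT => ?_⟩
    have h4 := hA T (le_trans (le_max_left _ _) hT)
    have hT3 : 3 ≤ T := le_trans (le_max_right _ _) hT
    have hl : 0 < Real.log T / (2 * Real.pi) := by
      have := Real.log_pos (show (1 : ℝ) < T by linarith)
      have hpi := Real.pi_pos
      positivity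
    rw [Real.dist_eq, abs_lt] at h4
    constructor
    · have h5 : 1 - δ < g T / (Real.log T / (2 * Real.pi)) := by linarith [h4.1]
      exact ((lt_div_iff₀ hl).1 h5).le
    · have h5 : g T / (Real.log T / (2 * Real.pi)) < 1 + δ := by linarith [h4.2]
      exact ((div_lt_iff₀ hl).1 h5).le
  have hN0 : ∀ γ : ℝ, (0 : ℝ) ≤ ((mz γ : ℕ) : ℝ) := fun γ => Nat.cast_nonneg _
  set N : ℝ → ℝ := Nb (fun γ => (mz γ : ℝ)) with hN
  have key : ∀ δ : ℝ, 0 < δ → δ < 1 / 2 → ∃ X0 C : ℝ, 3 ≤ X0 ∧ ∀ X : ℝ, X0 ≤ X →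
      (1 - δ) * N (X / (1 + δ)) - C ≤ (1 + δ) * (FF X - FF X0) / (2 * Real.pi) ∧
      (1 - δ) * (FF X - FF X0) / (2 * Real.pi) ≤ (1 + δ) * N ((1 + δ) * X) + δ * N (2 * X) + C := by
    intro δ hδ hδ2
    obtain ⟨X0, hX0, hb⟩ := hbd δ hδ
    obtain ⟨C, hC⟩ := h2 (fun γ => (mz γ : ℝ)) hN0 δ hδ hδ2 X0 hX0
    refine ⟨X0, C, hX0, fun X hX => ?_⟩
    obtain ⟨hC1, hC2, hC3⟩ := hC X hX
    have hlog : IntervalIntegrable (fun T : ℝ => Real.log T) MeasureTheory.volume X0 X :=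
      intervalIntegral.intervalIntegrable_log'
    have hint : ∫ T in X0..X, Real.log T = FF X - FF X0 := by
      rw [integral_log]
      unfold FF
      ring
    have e1 : ∀ a : ℝ, ∫ T in X0..X, a * (Real.log T / (2 * Real.pi))
        = a * (FF X - FF X0) / (2 * Real.pi) := by
      intro a
      have : (fun T : ℝ => a * (Real.log T / (2 * Real.pi)))
          = fun T : ℝ => (a / (2 * Real.pi)) * Real.log T := by
        funext T; ring
      rw [this, intervalIntegral.integral_const_mul, hint]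
      ring
    have hi : ∀ a : ℝ, IntervalIntegrable (fun T : ℝ => a * (Real.log T / (2 * Real.pi)))
        MeasureTheory.volume X0 X := fun a => (hlog.div_const _).const_mul _
    constructor
    · refine hC1.trans ?_
      rw [← e1]
      exact intervalIntegral.integral_mono_on hX hC3 (hi _) (fun T hT => (hb T hT.1).2)
    · refine le_trans ?_ hC2
      rw [← e1]
      exact intervalIntegral.integral_mono_on hX (hi _) hC3 (fun T hT => (hb T hT.1).1)
  -- upper bound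
  have upper : ∀ δ : ℝ, 0 < δ → δ < 1 / 2 → ∀ᶠ Y : ℝ in atTop, N Y ≤ (1 + 10 * δ) * HH Y := by
    intro δ hδ hδ2
    obtain ⟨X0, C, hX0, hk⟩ := key δ hδ hδ2
    have ht : Tendsto (fun Y : ℝ => (1 + δ) * (FF ((1 + δ) * Y) / (2 * Real.pi) / HH Y)
        + (C - (1 + δ) * FF X0 / (2 * Real.pi)) / HH Y) atTop (𝓝 ((1 + δ) * (1 + δ) + 0)) :=
      ((tendsto_FF (1 + δ) (by linarith)).const_mul _).add (tendsto_const_HH _)
    have hlt : (1 + δ) * (1 + δ) + 0 < (1 - δ) * (1 + 10 * δ) := by nlinarith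
    filter_upwards [ht.eventually_lt_const hlt, eventually_ge_atTop X0] with Y hY hYX
    have hH : 0 < HH Y := HH_pos (by linarith)
    have h5 := (hk ((1 + δ) * Y) (by nlinarith)).1
    rw [mul_div_cancel_left₀ _ (by linarith : (1 + δ) ≠ 0)] at h5
    have h6 : (1 + δ) * (FF ((1 + δ) * Y) / (2 * Real.pi) / HH Y)
        + (C - (1 + δ) * FF X0 / (2 * Real.pi)) / HH Y
        = ((1 + δ) * (FF ((1 + δ) * Y) - FF X0) / (2 * Real.pi) + C) / HH Y := by
      field_simp
      ring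
    rw [h6, div_lt_iff₀ hH] at hY
    have h7 : (1 - δ) * N Y < (1 - δ) * ((1 + 10 * δ) * HH Y) := by
      calc (1 - δ) * N Y ≤ (1 + δ) * (FF ((1 + δ) * Y) - FF X0) / (2 * Real.pi) + C := by linarith
        _ < _ := by rw [← mul_assoc]; exact hY
    exact (lt_of_mul_lt_mul_left h7 (by linarith)).le
  -- lower bound
  have lower : ∀ δ : ℝ, 0 < δ → δ < 1 / 20 → ∀ᶠ Z : ℝ in atTop, (1 - 20 * δ) * HH Z ≤ N Z := by
    intro δ hδ hδ2
    obtain ⟨X0, C, hX0, hk⟩ := key δ hδ (by linarith)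
    have hup := upper δ hδ (by linarith)
    have hc1 : 0 < 1 / (1 + δ) := by positivity
    have hc2 : 0 < 2 / (1 + δ) := by positivity
    have ht : Tendsto (fun Z : ℝ => (1 - δ) * (FF ((1 / (1 + δ)) * Z) / (2 * Real.pi) / HH Z)
        + (- C - (1 - δ) * FF X0 / (2 * Real.pi)) / HH Z
        - δ * (1 + 10 * δ) * (HH ((2 / (1 + δ)) * Z) / HH Z)) atTop
        (𝓝 ((1 - δ) * (1 / (1 + δ)) + 0 - δ * (1 + 10 * δ) * (2 / (1 + δ)))) :=
      (((tendsto_FF _ hc1).const_mul _).add (tendsto_const_HH _)).sub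
        ((tendsto_HH_mul _ hc2).const_mul _)
    have hlt : (1 + δ) * (1 - 20 * δ) <
        (1 - δ) * (1 / (1 + δ)) + 0 - δ * (1 + 10 * δ) * (2 / (1 + δ)) := by
      have e : (1 - δ) * (1 / (1 + δ)) + 0 - δ * (1 + 10 * δ) * (2 / (1 + δ))
          = (1 - 3 * δ - 20 * δ ^ 2) / (1 + δ) := by
        field_simp
        ring
      rw [e, lt_div_iff₀ (by linarith)]
      nlinarith [sq_nonneg δ, mul_pos hδ hδ, mul_pos (mul_pos hδ hδ) hδ]
    have hcomp : Tendsto (fun Z : ℝ => (2 / (1 + δ)) * Z) atTop atTop :=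
      tendsto_id.const_mul_atTop hc2
    filter_upwards [ht.eventually_const_lt hlt, hcomp.eventually hup,
      eventually_ge_atTop (2 * X0)] with Z hZ hZ2 hZX
    have hH : 0 < HH Z := HH_pos (by linarith)
    have hx : X0 ≤ (1 / (1 + δ)) * Z := by
      rw [div_mul_eq_mul_div, le_div_iff₀ (by linarith)]
      nlinarith
    have h5 := (hk ((1 / (1 + δ)) * Z) hx).2
    have e1 : (1 + δ) * ((1 / (1 + δ)) * Z) = Z := by field_simp
    have e2 : 2 * ((1 / (1 + δ)) * Z) = (2 / (1 + δ)) * Z := by ring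
    rw [e1, e2] at h5
    have h6 : (1 - δ) * (FF ((1 / (1 + δ)) * Z) / (2 * Real.pi) / HH Z)
        + (- C - (1 - δ) * FF X0 / (2 * Real.pi)) / HH Z
        - δ * (1 + 10 * δ) * (HH ((2 / (1 + δ)) * Z) / HH Z)
        = ((1 - δ) * (FF ((1 / (1 + δ)) * Z) - FF X0) / (2 * Real.pi) - C
          - δ * ((1 + 10 * δ) * HH ((2 / (1 + δ)) * Z))) / HH Z := by
      field_simp
      ring
    rw [h6, lt_div_iff₀ hH] at hZ
    have h7 : δ * N ((2 / (1 + δ)) * Z) ≤ δ * ((1 + 10 * δ) * HH ((2 / (1 + δ)) * Z)) :=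
      mul_le_mul_of_nonneg_left hZ2 hδ.le
    have h8 : (1 + δ) * ((1 - 20 * δ) * HH Z) < (1 + δ) * N Z := by
      rw [← mul_assoc]
      linarith
    exact (lt_of_mul_lt_mul_left h8 (by linarith)).le
  unfold NasStatement
  rw [Metric.tendsto_nhds]
  intro η hη
  obtain ⟨δ, hδ, hδ1, hδ2⟩ : ∃ δ : ℝ, 0 < δ ∧ δ < 1 / 20 ∧ 20 * δ < η :=
    ⟨min (1 / 40) (η / 40), by positivity, by
      have := min_le_left (1 / 40 : ℝ) (η / 40); linarith, by
      have := min_le_right (1 / 40 : ℝ) (η / 40); linarith⟩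
  filter_upwards [upper δ hδ (by linarith), lower δ hδ hδ1, eventually_gt_atTop 1] with X hu hl hX
  have hH : 0 < HH X := HH_pos hX
  rw [Real.dist_eq, abs_lt]
  change -η < N X / HH X - 1 ∧ N X / HH X - 1 < η
  have h5 : N X / HH X ≤ 1 + 10 * δ := (div_le_iff₀ hH).2 hu
  have h6 : 1 - 20 * δ ≤ N X / HH X := (le_div_iff₀ hH).2 hl
  constructor <;> linarith

end Pool.Agent.Lib.MP_6bc78b_nt.MS.P4.H84
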